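import Mathlib
import Pool.Agent.H.MP_23a294_lc.A

set_option autoImplicit false

namespace Pool.Agent.Results.MP_c06a36_lc.Regular

open Set Function MeasurableSpace MeasureTheory Pool.Agent.H.MP_23a294_lc.A
open Cardinal hiding univ

variable {κ : Cardinal.{0}}

lemma pig (hκ : κ.IsRegular) (h0 : ℵ₀ < κ) {α β : Type} [Countable β] {s : Set α} (hs : κ ≤ #s)
    (f : α → β) : ∃ t ⊆ s, κ ≤ #t ∧ ∃ b, ∀ x ∈ t, f x = b := by
  obtain ⟨b, t, h, a, c⟩ := infinite_pigeonhole_set (s := s) (fun x => f x) κ hs hκ.aleph0_le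
    (by rw [hκ.cof_ord]; exact mk_le_aleph0.trans_lt h0)
  exact ⟨t, h, a, b, c⟩

lemma weak {α G ι : Type} (θ : ι → α → G) (I : Finset ι) : ∀ {s : Set α}, κ ≤ #s →
    ∃ t ⊆ s, κ ≤ #t ∧ ∀ i ∈ I, (∃ r, ∀ y ∈ t, θ i y = r) ∨ ∀ u, #{y ∈ t | θ i y = u} < κ := by
  classical
  induction I using Finset.induction_on with
  | empty => exact fun hs => ⟨_, subset_rfl, hs, by simp⟩
  | insert j I _ ih =>
    intro s hs
    by_cases h : ∃ u, κ ≤ #{y ∈ s | θ j y = u}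
    · obtain ⟨u, hu⟩ := h
      obtain ⟨t, a, b, c⟩ := ih hu
      exact ⟨t, fun y hy => (a hy).1, b, Finset.forall_mem_insert _ _ _ |>.2
        ⟨.inl ⟨u, fun y hy => (a hy).2⟩, c⟩⟩
    · push Not at h
      obtain ⟨t, a, b, c⟩ := ih hs
      exact ⟨t, a, b, Finset.forall_mem_insert _ _ _ |>.2 ⟨.inr fun u =>
        (mk_le_mk_of_subset fun y hy => And.intro (a hy.1) hy.2).trans_lt (h u), c⟩⟩

lemma ds (hκ : κ.IsRegular) (h0 : ℵ₀ < κ) {α G ι : Type} [Fintype ι] (θ : ι → α → G) {s : Set α}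
    (hs : κ ≤ #s) : ∃ t ⊆ s, κ ≤ #t ∧ ∃ (C : Set ι) (r : ι → G), (∀ i ∈ C, ∀ y ∈ t, θ i y = r i) ∧
      (∀ i ∉ C, ∀ j, ∀ y ∈ t, ∀ y' ∈ t, θ i y = θ j y' → y = y' ∧ j ∉ C) ∧
      ∃ P : ι → Set ι, ∀ i, ∀ y ∈ t, {j | θ j y = θ i y} = P i := by
  classical
  obtain ⟨s1, a1, b1, P, hP⟩ := pig hκ h0 hs fun y i => {j | θ j y = θ i y}
  obtain ⟨s2, a2, b2, c⟩ := weak θ Finset.univ b1
  obtain ⟨y0, hy0⟩ : s2.Nonempty := nonempty_coe_sort.1 (mk_ne_zero_iff.1 (hκ.pos.trans_le b2).ne')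
  let C := {i | ∃ r, ∀ y ∈ s2, θ i y = r}
  have hC : ∀ i ∈ C, ∀ y ∈ s2, θ i y = θ i y0 := fun i ⟨r, h⟩ y hy => (h y hy).trans (h _ hy0).symm
  have sm : ∀ i ∉ C, ∀ u, #{y ∈ s2 | θ i y = u} < κ := fun i h =>
    (c i (Finset.mem_univ _)).resolve_left h
  obtain ⟨t, ht⟩ := zorn_subset {t : Set α | t ⊆ s2 ∧
      ∀ i ∉ C, ∀ j ∉ C, ∀ y ∈ t, ∀ y' ∈ t, θ i y = θ j y' → y = y'} fun c c1 c2 =>
    ⟨⋃₀ c, ⟨sUnion_subset fun t h => (c1 h).1, by
      rintro i hi j hj y ⟨a, a1, a2⟩ y' ⟨b, b1, b2⟩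
      rcases c2.total a1 b1 with k | k
      exacts [(c1 b1).2 i hi j hj y (k a2) y' b2, (c1 a1).2 i hi j hj y a2 y' (k b2)]⟩,
      fun _ => subset_sUnion_of_mem⟩
  have nc : ∀ i ∉ C, ∀ j ∈ C, ∀ y ∈ s2, ∀ y' ∈ s2, θ i y ≠ θ j y' := fun i hi j hj y hy y' hy' e => by
    have e : j ∈ P i := by
      rw [← congrFun (hP y (a2 hy)) i]
      exact (hC j hj y hy).trans ((hC j hj y' hy').symm.trans e.symm)
    refine hi ⟨θ j y0, fun z hz => ?_⟩
    rw [← congrFun (hP z (a2 hz)) i] at e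
    exact Eq.trans (Eq.symm e) (hC j hj z hz)
  refine ⟨t, ht.1.1.trans (a2.trans a1), not_lt.1 fun l => ?_, C, fun i => θ i y0,
    fun i hi y hy => hC i hi y (ht.1.1 hy), fun i hi j y hy y' hy' e => ?_, P,
    fun i y hy => congrFun (hP y (a2 (ht.1.1 hy))) i⟩
  · have : s2 ⊆ t ∪ ⋃ w : t × {i // i ∉ C} × ι, {y ∈ s2 | θ w.2.1 y = θ w.2.2 w.1} := fun y hy => by
      by_contra hn
      simp only [mem_union, mem_iUnion, not_or, not_exists, Prod.forall, Subtype.forall] at hn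
      refine hn.1 (ht.2 (y := insert y t) ⟨insert_subset hy ht.1.1, ?_⟩ (subset_insert _ _)
        (mem_insert _ _))
      rintro i hi j hj z (rfl | hz) z' (rfl | hz') e
      exacts [rfl, (hn.2 _ hz' i hi j ⟨hy, e⟩).elim, (hn.2 _ hz j hj i ⟨hy, e.symm⟩).elim,
        ht.1.2 i hi j hj z hz z' hz' e]
    refine (b2.trans (mk_le_mk_of_subset this)).not_gt ((mk_union_le _ _).trans_lt
      (add_lt_of_lt h0.le l ((card_iUnion_lt_iff_forall_of_isRegular hκ ?_).2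
        fun w => sm _ w.2.1.2 _)))
    rw [mk_prod]
    simpa using mul_lt_of_lt h0.le l ((mk_lt_aleph0 (α := {i // i ∉ C} × ι)).trans h0)
  · have hj : j ∉ C := fun hj => nc i hi j hj y (ht.1.1 hy) y' (ht.1.1 hy') e
    exact ⟨ht.1.2 i hi j hj y hy y' hy' e, hj⟩

lemma meas {E : Type} (𝒜 : ℕ → Set E) (k : ℕ) : ∀ Z ∈ cls 𝒜 k,
    MeasurableSet[(generateFrom (range 𝒜)).prod
      ((generateFrom (range 𝒜)).prod (generateFrom (range 𝒜)))] Z := by
  letI := generateFrom (range 𝒜)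
  induction k with
  | zero =>
    rintro Z ⟨a, b, c, d, e, f, rfl | rfl⟩
    exacts [d.prod (e.prod f), (d.prod (e.prod f)).compl]
  | succ k ih =>
    rintro Z ⟨f, h, rfl | rfl⟩
    exacts [.iUnion fun n => ih _ (h n), (MeasurableSet.iUnion fun n => ih _ (h n)).compl]

theorem result (κ : Cardinal.{0}) (hκ : κ.IsRegular) (hc : κ ≤ continuum.{0})
    (hX : ∃ X : Set ℝ, #X ≤ κ ∧ volume X ≠ 0) (G : Type) [Group G] (hG : #G = continuum.{0}) :
    ∃ 𝒜 : ℕ → Set G,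
      (∃ m : @Measure G (generateFrom (range 𝒜)), m univ = 1 ∧
        ∀ x, MeasurableSet[generateFrom (range 𝒜)] {x} → m {x} = 0) ∧
      MeasurableSet[(generateFrom (range 𝒜)).prod
        ((generateFrom (range 𝒜)).prod (generateFrom (range 𝒜)))]
        {p : G × G × G | p.1 * p.2.1 = p.2.2} := by
  classical
  obtain ⟨X0, x1, x2⟩ := hX
  have h0 : ℵ₀ < κ := not_le.1 fun l =>
    x2 ((le_aleph0_iff_set_countable.1 (x1.trans l)).measure_zero _)
  obtain ⟨n0, hn0⟩ : ∃ n : ℕ, volume (X0 ∩ Icc (-n : ℝ) n) ≠ 0 := by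
    by_contra hn
    push Not at hn
    exact x2 (measure_mono_null (fun x hx => by
      obtain ⟨n, h⟩ := exists_nat_ge |x|
      exact mem_iUnion.2 ⟨n, hx, abs_le.1 h⟩) (measure_iUnion_null hn))
  set X := X0 ∩ Icc (-n0 : ℝ) n0
  have xf : volume X ≠ ⊤ := ((measure_mono inter_subset_right).trans_lt measure_Icc_lt_top).ne
  obtain ⟨l, hl⟩ := lists G
  obtain ⟨s, -, s1, n, hn⟩ := pig hκ h0 (s := (univ : Set G)) (by simpa [hG]) fun g => (l g).length
  obtain ⟨t, ts, t1, C, r, c1, c2, P, c3⟩ := ds hκ h0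
    (fun i : Fin (n + 1) × Bool => th l (i.1, i.2)) s1
  obtain ⟨j⟩ : Nonempty (X ↪ t) :=
    (le_def _ _).1 ((mk_le_mk_of_subset inter_subset_left).trans (x1.trans t1))
  let J : ℝ → G := fun x => if h : x ∈ X then j ⟨x, h⟩ else 1
  have J1 : ∀ x ∈ X, J x ∈ t := fun x h => by simp [J, h]
  have J2 : InjOn J X := fun x h y h' e => by
    simpa using j.injective (Subtype.ext (by simpa [J, h, h'] using e) : j ⟨x, h⟩ = j ⟨y, h'⟩)
  obtain ⟨n1⟩ : Nonempty (G ↪ ℝ) := (le_def _ _).1 (by rw [hG, mk_real])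
  obtain ⟨en, hen⟩ := exists_injective_nat (Option (Set (Fin (n + 1) × Bool)))
  let sp : G → ℝ × (Fin (n + 1) × Bool) → Prop := fun u w =>
    w.1 ∈ X ∧ w.2 ∉ C ∧ u = th l (w.2.1, w.2.2) (J w.1)
  let ν : G → ℝ × ℕ := fun u => if h : ∃ w, sp u w then
    (h.choose.1, en (some (P h.choose.2))) else (n1 u, en none)
  have n2 : ∀ x ∈ X, ∀ i ∉ C, ν (th l (i.1, i.2) (J x)) = (x, en (some (P i))) := fun x hx i hi => by
    have h : ∃ w, sp (th l (i.1, i.2) (J x)) w := ⟨(x, i), hx, hi, rfl⟩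
    obtain ⟨a, b, c⟩ := h.choose_spec
    have e := J2 hx a (c2 i hi _ _ (J1 x hx) _ (J1 _ a) c).1
    simp only [ν, dif_pos h]
    rw [← c3 _ _ (J1 _ a), ← c3 i _ (J1 x hx), ← c, ← e]
  have n3 : Injective ν := fun u v e => by
    by_cases hu : ∃ w, sp u w <;> by_cases hv : ∃ w, sp v w
    · obtain ⟨⟨x, i⟩, a, b, rfl⟩ := hu
      obtain ⟨⟨y, k⟩, a', b', rfl⟩ := hv
      rw [n2 _ a _ b, n2 _ a' _ b', Prod.mk.injEq, hen.eq_iff, Option.some.injEq] at e
      obtain ⟨rfl, e⟩ := e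
      rw [← c3 _ _ (J1 _ a), ← c3 _ _ (J1 _ a)] at e
      exact (Set.ext_iff.1 e i).1 rfl
    · simp only [ν, dif_pos hu, dif_neg hv, Prod.mk.injEq, hen.eq_iff, reduceCtorEq, and_false] at e
    · simp only [ν, dif_neg hu, dif_pos hv, Prod.mk.injEq, hen.eq_iff, reduceCtorEq, and_false] at e
    · simp only [ν, dif_neg hu, dif_neg hv, Prod.mk.injEq] at e
      exact n1.injective e.1
  obtain ⟨f, f1, f2⟩ := measurable_injection_nat_bool_of_countablySeparated (ℝ × ℕ)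
  obtain ⟨𝒜, A1, A2⟩ := cls2 l hl (f ∘ ν) (f2.comp n3)
  refine ⟨𝒜, ?_, meas 𝒜 2 _ A2⟩
  letI := generateFrom (range 𝒜)
  have key : ∀ S : Set G, MeasurableSet S → ∃ B, MeasurableSet B ∧ B ∩ X = J ⁻¹' S ∩ X := by
    intro S hS
    induction hS with
    | basic _ h =>
      obtain ⟨m, rfl⟩ := h
      obtain ⟨⟨i, b⟩, k, e⟩ := A1 m
      let i' : Fin (n + 1) × Bool := (⟨min i n, by omega⟩, b)
      have : ∀ x ∈ X, th l (i, b) (J x) = th l (i'.1, i'.2) (J x) := fun x hx => by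
        have := hn _ (ts (J1 x hx))
        rcases le_total i n with h | h
        · simp [i', h]
        · simp only [th, i', min_eq_right h]
          rw [List.getD_eq_default _ _ (by omega), List.getD_eq_default _ _ (by omega)]
      have m1 : ∀ g : ℝ → ℝ × ℕ, Measurable g → (∀ x ∈ X, ν (th l (i'.1, i'.2) (J x)) = g x) →
          ∃ B, MeasurableSet B ∧ B ∩ X = J ⁻¹' 𝒜 m ∩ X := fun g g1 g2 =>
        ⟨{x | f (g x) k = true}, ((measurable_pi_apply k).comp (f1.comp g1))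
          (measurableSet_singleton true), Set.ext fun x => and_congr_left fun hx => by
            simp [e, this x hx, g2 x hx]⟩
      by_cases h : i' ∈ C
      · exact m1 (fun _ => ν (r i')) measurable_const fun x hx =>
          congrArg ν (c1 _ h _ (J1 x hx))
      · exact m1 (fun x => (x, en (some (P i')))) (by fun_prop) fun x hx => n2 x hx _ h
    | empty => exact ⟨∅, .empty, by simp⟩
    | compl S _ ih =>
      obtain ⟨B, a, b⟩ := ih
      exact ⟨Bᶜ, a.compl, Set.ext fun x => and_congr_left fun hx =>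
        not_congr (by simpa [hx] using Set.ext_iff.1 b x)⟩
    | iUnion S _ ih =>
      choose B a b using ih
      exact ⟨⋃ i, B i, .iUnion a, by simp [iUnion_inter, b]⟩
  let μ : Measure G := Measure.ofMeasurable (fun S _ => volume (J ⁻¹' S ∩ X)) (by simp)
    fun S h1 h2 => by
      choose B a b using fun i => key _ (h1 i)
      have : J ⁻¹' (⋃ i, S i) ∩ X = (⋃ i, B i) ∩ X := by simp [iUnion_inter, b]
      rw [this, ← Measure.restrict_apply (.iUnion a), measure_iUnion₀ (fun i k ne => ?_)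
        fun i => (a i).nullMeasurableSet]
      · simp [Measure.restrict_apply (a _), b]
      · rw [onFun, AEDisjoint, Measure.restrict_apply ((a i).inter (a k)), inter_inter_distrib_right, b, b,
          ← inter_inter_distrib_right, ← preimage_inter, (h2 ne).inter_eq]
        simp
  have hμ : ∀ S, MeasurableSet S → μ S = volume (J ⁻¹' S ∩ X) := fun S h =>
    Measure.ofMeasurable_apply S h
  refine ⟨(volume X)⁻¹ • μ, ?_, fun x hx => ?_⟩
  · simp [hμ, ENNReal.inv_mul_cancel hn0 xf]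
  · have : (J ⁻¹' {x} ∩ X).Subsingleton := fun a ha b hb => J2 ha.2 hb.2 (ha.1.trans hb.1.symm)
    simp [hμ _ hx, this.countable.measure_zero]

end Pool.Agent.Results.MP_c06a36_lc.Regular
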